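import Pool.Agent.Q239.Mesh.Split

/-!
# `P_n × C_n × C_n × C_n` is biplanar

The edges of the mesh are split as follows. First plane: all edges of the second direction, the
wrap-around edges of the third direction, and the edges of the first (path) direction except those
from `x₁` to `x₁ + 1` with `x₁` even and `x₃` last, or `x₁` odd and `x₃ = 0`. Second plane: all
other edges. In both planes one gets a disjoint union of graphs `P_k × C_l`, drawn on concentric
circles.
-/

set_option autoImplicit false

namespace Pool.Agent.Results.MP_d5a612_co.MeshBiplanar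

open Pool.Agent.Helper770.Crossing SimpleGraph

/-- For all `m` and all `a, b, c ≥ 3` the mesh `P_m × C_a × C_b × C_c` is the union of two
edge-disjoint spanning subgraphs that have drawings in the plane without crossings, and its
biplanar crossing number is `0`. In particular this holds for `P_n × C_n × C_n × C_n`, `n ≥ 3`. -/
theorem result (m a b c : ℕ) (ha : 3 ≤ a) (hb : 3 ≤ b) (hc : 3 ≤ c) :
    (∃ (H₁ H₂ : SimpleGraph (((Fin m × Fin a) × Fin b) × Fin c)) (D₁ : Drawing H₁)
      (D₂ : Drawing H₂),
      H₁ ⊔ H₂ = (((pathGraph m □ cycleGraph a) □ cycleGraph b) □ cycleGraph c) ∧ Disjoint H₁ H₂ ∧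
        D₁.crossings = ∅ ∧ D₂.crossings = ∅) ∧
    biplanarCrossingNumber (((pathGraph m □ cycleGraph a) □ cycleGraph b) □ cycleGraph c : SimpleGraph (((Fin m × Fin a) × Fin b) × Fin c)) = 0 :=
  Pool.Agent.Q239.Mesh.mesh_biplanar ha hb hc

end Pool.Agent.Results.MP_d5a612_co.MeshBiplanar
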